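import Mathlib
import Pool.Agent.Helper324.CEFin2

namespace Pool.Agent.Results.MP_c5257f_an.BoundedExponent

/-- `q` is a positive integer such that every operator `a` on the complex normed space `E` with
`|a| ≤ 1` and `|a ^ q| = 1` has spectral radius `1`. -/
def Works (E : Type) [NormedAddCommGroup E] [NormedSpace ℂ E] (q : ℕ) : Prop :=
  1 ≤ q ∧ ∀ a : E →L[ℂ] E, ‖a‖ ≤ 1 → ‖a ^ q‖ = 1 → spectralRadius ℂ a = 1

/-- The critical exponent `q(E)`: the smallest positive integer that works for `E`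
(`∞` if there is none). -/
noncomputable def critExp (E : Type) [NormedAddCommGroup E] [NormedSpace ℂ E] : ℕ∞ :=
  ⨅ (q : ℕ) (_ : Works E q), (q : ℕ∞)

/-- `M(n)`: the minimum of `q(E)` over all `n`-dimensional complex normed spaces `E`. -/
noncomputable def minExp (n : ℕ) : ℕ∞ :=
  ⨅ (E : Type) (_ : NormedAddCommGroup E) (_ : NormedSpace ℂ E)
    (_ : FiniteDimensional ℂ E) (_ : Module.finrank ℂ E = n), critExp E

/-- `M(n) ≤ 17` for every `n ≥ 1`; in particular `liminf M(n) = ∞` is false. -/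
theorem result : (∀ n : ℕ, 1 ≤ n → minExp n ≤ 17) ∧
    ¬ (Filter.liminf minExp Filter.atTop = ⊤) := by
  have h17 : ∀ n : ℕ, minExp n ≤ 17 := by
    intro n
    obtain ⟨E, i1, i2, hfd, hn, hT⟩ := Pool.Agent.Helper324.CE.complex_case n
    refine iInf_le_of_le E (iInf_le_of_le i1 (iInf_le_of_le i2
      (iInf_le_of_le hfd (iInf_le_of_le hn ?_))))
    exact iInf_le_of_le 17 (iInf_le_of_le ⟨by norm_num, hT⟩ le_rfl)
  refine ⟨fun n _ => h17 n, ?_⟩
  intro h
  have h1 : Filter.liminf minExp Filter.atTop ≤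
      Filter.liminf (fun _ : ℕ => (17 : ℕ∞)) Filter.atTop :=
    Filter.liminf_le_liminf (Filter.Eventually.of_forall h17)
  rw [Filter.liminf_const, h] at h1
  exact absurd h1 (by simp)

end Pool.Agent.Results.MP_c5257f_an.BoundedExponent
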